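import Pool.Agent.Work.MP_4a0cc5_co.Final

set_option autoImplicit false

/-!
MP_4a0cc5_co: the maximum cut of graphs with few copies of the cycle of length `2 r`.
-/

namespace Pool.Agent.Results.MP_4a0cc5_co.FewEvenCycles

open SimpleGraph Pool.Agent.Work.FewC

/-- the least maximum cut among the finite graphs with exactly `m` edges and at most `N` copies of
the cycle of length `2 r` -/
noncomputable def fcut (r m : ℕ) (N : ℝ) : ℕ :=
  sInf {k : ℕ | ∃ (V : Type) (_ : Fintype V) (G : SimpleGraph V), G.edgeSet.ncard = m ∧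
    (G.copyCount (cycleGraph (2 * r)) : ℝ) ≤ N ∧ maxCut G = k}

/-- the order of the surplus of the maximum cut, for all numbers of copies from
`m ^ (2 r / (r + 1))` on -/
theorem result (r : ℕ) (hr : 2 ≤ r) : ∃ c C : ℝ, 0 < c ∧ 0 < C ∧
    ∀ (m : ℕ) (N : ℝ), 1 ≤ m → (m : ℝ) ^ ((2 * r : ℝ) / (r + 1)) ≤ N → N ≤ (m : ℝ) ^ r →
      (m : ℝ) / 2 + c * ((m : ℝ) ^ ((2 * r - 1 : ℝ) / (2 * r - 2)) * N ^ (-1 / (2 * r - 2 : ℝ))) ≤
        fcut r m N ∧
      (fcut r m N : ℝ) ≤ (m : ℝ) / 2 +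
        C * ((m : ℝ) ^ ((2 * r - 1 : ℝ) / (2 * r - 2)) * N ^ (-1 / (2 * r - 2 : ℝ))) := by
  obtain ⟨c, hc, hlow⟩ := lower r hr
  refine ⟨c, 6, hc, by norm_num, fun m N hm hN1 hN2 => ?_⟩
  obtain ⟨V, iV, G, h1, h2, h3⟩ := upper r hr m N hm hN1 hN2
  have hmem : maxCut G ∈ {k : ℕ | ∃ (V : Type) (_ : Fintype V) (G : SimpleGraph V),
      G.edgeSet.ncard = m ∧ (G.copyCount (cycleGraph (2 * r)) : ℝ) ≤ N ∧ maxCut G = k} :=
    ⟨V, iV, G, h1, h2, rfl⟩
  constructor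
  · obtain ⟨V', iV', G', h1', h2', h3'⟩ := Nat.sInf_mem ⟨_, hmem⟩
    have h4 := hlow V' G' m N h1' hm hN1 h2'
    have h5 : (maxCut G' : ℝ) = fcut r m N := by
      exact_mod_cast h3'
    rw [h5] at h4
    exact h4
  · refine le_trans ?_ h3
    exact_mod_cast Nat.sInf_le hmem

end Pool.Agent.Results.MP_4a0cc5_co.FewEvenCycles
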