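import Pool.Agent.Work.MP_4a0cc5_co.TransferMain

set_option autoImplicit false

/-!
MP_4a0cc5_co: the question on the maximum cut of graphs without `C_2r` as a question on nearly
regular graphs of the density of the Turan problem.
-/

namespace Pool.Agent.Results.MP_4a0cc5_co.TuranEquivalence

open SimpleGraph Pool.Agent.Work.FewC

/-- The lower bound of Alon, Krivelevich and Sudakov for `C_2r` is tight, up to the constant, for
infinitely many `m`. -/
def Tight (r : ℕ) : Prop := ∃ C : ℝ, ∀ M : ℕ, ∃ m : ℕ, M ≤ m ∧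
  (fC r m : ℝ) ≤ m / 2 + C * (m : ℝ) ^ ((2 * r + 1 : ℝ) / (2 * r + 2))

/-- There are arbitrarily large graphs without `C_2r`, with `n` vertices, all degrees between
`c n ^ (1 / r)` and `C n ^ (1 / r)`, and surplus at most `C n ^ (1 + 1 / (2 r))`. -/
def DenseSmallSurplus (r : ℕ) : Prop := ∃ c C : ℝ, 0 < c ∧ ∀ M : ℕ,
  ∃ (V : Type) (_ : Fintype V) (G : SimpleGraph V),
    M ≤ Fintype.card V ∧ (cycleGraph (2 * r)).Free G ∧
    (∀ v, c * (Fintype.card V : ℝ) ^ (1 / r : ℝ) ≤ (G.neighborSet v).ncard ∧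
      ((G.neighborSet v).ncard : ℝ) ≤ C * (Fintype.card V : ℝ) ^ (1 / r : ℝ)) ∧
    (maxCut G : ℝ) ≤ G.edgeSet.ncard / 2 + C * (Fintype.card V : ℝ) ^ (1 + 1 / (2 * r) : ℝ)

theorem result (r : ℕ) (hr : 2 ≤ r) : Tight r ↔ DenseSmallSurplus r :=
  ⟨forward r hr, backward r hr⟩

end Pool.Agent.Results.MP_4a0cc5_co.TuranEquivalence
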